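import Mathlib
import Pool.Agent.H31.CR.Defs
import Pool.Agent.H31.CR.Final

set_option autoImplicit false

namespace Pool.Agent.Results.MP_ae02e0_al.ConjRatioIndep

open Pool.Agent.H31.ConjRatio

universe u

/-- The conjugacy ratio of a finitely generated group does not depend on the finite generating
set. -/
theorem result : ∀ (G : Type u) [Group G] (X Y : Set G), X.Finite → Y.Finite →
    Subgroup.closure X = ⊤ → Subgroup.closure Y = ⊤ →
    conjugacyRatio X = conjugacyRatio Y := by
  intro G _ X Y hX hY hgX hgY
  exact Pool.Agent.H31.CR.CR_indep X Y hX hY hgX hgY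

end Pool.Agent.Results.MP_ae02e0_al.ConjRatioIndep
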