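import Mathlib
import Pool.Agent.H31.CR.Defs
import Pool.Agent.H31.CR.Final

set_option autoImplicit false

namespace Pool.Agent.Results.MP_ae02e0_al.RatioToZero

open Pool.Agent.H31.ConjRatio Filter Topology

universe u

/-- For a finitely generated group which is not virtually abelian the proportion of conjugacy
classes in balls tends to zero, for every finite generating set. -/
theorem result : ∀ (G : Type u) [Group G] (X : Set G), X.Finite → Subgroup.closure X = ⊤ →
    (¬ ∃ H : Subgroup G, H.FiniteIndex ∧ ∀ a ∈ H, ∀ b ∈ H, a * b = b * a) →
    Tendsto (ratio X) atTop (𝓝 0) := by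
  intro G _ X hX hgX hva
  exact Pool.Agent.H31.CR.ratio_tendsto_zero X hX hgX hva

end Pool.Agent.Results.MP_ae02e0_al.RatioToZero
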